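import Pool.Agent.K6.H23.WA.ModT
import Pool.Agent.K6.H23.WA.PieceR1
import Pool.Agent.K6.H23.WA.PieceR2

/-!
# Large and moderate deviations of the area of self-avoiding polygons

Let `A_n` be the area of the uniform self-avoiding polygon of perimeter `2 n` on the square lattice,
and let `I` be the rate function of the end point of the self-avoiding walk. For `0 < a < 1/4`

`-(1 / (2 n)) log P (A_n ≥ a n^2) → J(a)`,

where `J(a)` is given by an isoperimetric problem: it is the least cost `∑ t_i I(v_i)` of a closed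
polygonal curve that has the velocity `2 v_i` during the time `t_i`, with total time `1`, and
encloses the (signed) area `a`. The bounds hold at every `n`: for `M ≤ √n / 4`

`P (A_n ≥ r) = exp (- 2 n J(r / n^2 + O (1 / M)) + O (M (log n)^2))`,

so they give the tail of the area down to areas much smaller than `n^2`. If the rate function of the
end point is asymptotically radial, `I(v) ~ κ |v|^θ` for `v → 0`, with `θ ≥ 2`, then

`P (A_n ≥ r_n) = exp (- (1 + o(1)) 2 n κ (π r_n / n^2)^(θ/2))`: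

the most probable way to enclose the area `r` is to follow a circle of this area, and the tail of
the area is the tail of the end point of a walk at the distance of half the perimeter of that circle.
For the conjectured `θ = 4` this is the tail `exp (- C x^2)` of the Airy law at `r = x n^(3/2)`,
for all `x` between `n^(1/6) (log n)^(2/3)` and `n^(1/2)` (exclusive).

Proof. Upper bound: the polygon is sampled at `M` times. Its area is at most the largest area of a
closed polygon with the sampled increments up to reflections; this is `(1/2) ∑ max (|x_i y_j|,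
|x_j y_i|) + O (n^2 / M)` by positive semidefiniteness of the kernel `min (a_i b_j, a_j b_i)`.
Lower bound: walks that stay below their chords are glued to a convex chain, four reflected copies
of the chain surround the wanted polygon, and the loop of the surrounding walk is extracted without
loss of enclosed area; the lost steps are inserted as small polygons.
-/

set_option autoImplicit false

namespace Pool.Agent.Results.MP_f6626d_co.AreaLargeDeviations

open Filter Topology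

/-- a closed nearest-neighbour loop on `ℤ²` with `m` steps, rooted at the origin and oriented,
that visits no vertex twice -/
def IsLoop (m : ℕ) (f : ZMod m → ℤ × ℤ) : Prop :=
  f 0 = 0 ∧ Function.Injective f ∧
    ∀ i : ZMod m, |(f (i + 1)).1 - (f i).1| + |(f (i + 1)).2 - (f i).2| = 1

/-- the edge from `f k` to `f (k+1)` is horizontal, joins the columns `x = a` and `x = a + 1`, and
has height larger than `b`: it lies above the unit cell `[a, a+1] × [b, b+1]` -/
def Above (m : ℕ) (f : ZMod m → ℤ × ℤ) (a b : ℤ) (k : ZMod m) : Prop :=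
  (((f k).1 = a ∧ (f (k + 1)).1 = a + 1) ∨ ((f k).1 = a + 1 ∧ (f (k + 1)).1 = a)) ∧ b < (f k).2

/-- the unit cell `[a, a+1] × [b, b+1]` is enclosed by the loop: the vertical ray from the cell
upwards crosses an odd number of edges -/
def Encl (m : ℕ) (f : ZMod m → ℤ × ℤ) (c : ℤ × ℤ) : Prop :=
  Odd (Nat.card {k : ZMod m // Above m f c.1 c.2 k})

/-- the area: the number of unit cells enclosed by the loop -/
noncomputable def area (m : ℕ) (f : ZMod m → ℤ × ℤ) : ℕ := Nat.card {c : ℤ × ℤ // Encl m f c}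

/-- `P (A_n ≥ r)`: the proportion of the self-avoiding polygons of perimeter `2 n` with area at
least `r` -/
noncomputable def large (n : ℕ) (r : ℝ) : ℝ :=
  ({f : ZMod (2 * n) → ℤ × ℤ | IsLoop (2 * n) f ∧ r ≤ area (2 * n) f}.ncard : ℝ) /
    ({f : ZMod (2 * n) → ℤ × ℤ | IsLoop (2 * n) f}.ncard : ℝ)

/-- `ω` is an `n`-step self-avoiding walk on `ℤ²` started at the origin. -/
def IsSAW (n : ℕ) (ω : Fin (n + 1) → ℤ × ℤ) : Prop :=
  ω 0 = (0, 0) ∧
  (∀ i : Fin n, |(ω i.succ).1 - (ω i.castSucc).1| + |(ω i.succ).2 - (ω i.castSucc).2| = 1) ∧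
  Function.Injective ω

/-- `c_n`: the number of `n`-step self-avoiding walks from the origin -/
noncomputable def c (n : ℕ) : ℕ := Nat.card {ω : Fin (n + 1) → ℤ × ℤ // IsSAW n ω}

/-- `c_n(x)`: the number of `n`-step self-avoiding walks from the origin to `x` -/
noncomputable def cx (n : ℕ) (x : ℤ × ℤ) : ℕ :=
  Nat.card {ω : Fin (n + 1) → ℤ × ℤ // IsSAW n ω ∧ ω (Fin.last n) = x}

/-- `P_n(ω(n) = x)`, the probability that the uniform `n`-step self-avoiding walk ends at `x` -/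
noncomputable def P (n : ℕ) (x : ℤ × ℤ) : ℝ := (cx n x : ℝ) / (c n : ℝ)

/-- the costs `∑ t_i I(v_i)` of the closed polygonal curves with the successive edges `2 t_i v_i`,
where `t_i ≥ 0`, `∑ t_i = 1`, `|v_i|_1 ≤ 1` and `∑ t_i v_i = 0`, that enclose at least the signed
area `a`; the signed area of such a curve is `(1/2) ∑_{i < j} (2 t_i v_i) × (2 t_j v_j)` -/
def costs (I : ℝ × ℝ → ℝ) (a : ℝ) : Set ℝ :=
  {c | ∃ (m : ℕ) (t : Fin m → ℝ) (v : Fin m → ℝ × ℝ), (∀ i, 0 ≤ t i) ∧ ∑ i, t i = 1 ∧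
    (∀ i, |(v i).1| + |(v i).2| ≤ 1) ∧ ∑ i, t i * (v i).1 = 0 ∧ ∑ i, t i * (v i).2 = 0 ∧
    a ≤ 2 * ∑ j, ∑ i ∈ Finset.univ.filter (· < j),
      t i * t j * ((v i).1 * (v j).2 - (v j).1 * (v i).2) ∧ c = ∑ i, t i * I (v i)}

/-- the least cost of a closed polygonal curve that encloses at least the area `a` -/
noncomputable def J (I : ℝ × ℝ → ℝ) (a : ℝ) : ℝ := sInf (costs I a)

theorem c_eq (n : ℕ) : c n = TH795.EP.c n := TH795.EP2.card_walks n

theorem cx_eq (n : ℕ) (x : ℤ × ℤ) : cx n x = TH795.EP.a n x.1 x.2 := TH795.EP2.card_walks_to n x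

theorem large_eq (n : ℕ) (r : ℝ) : large n r = Pool.Agent.Y981.L2.par n r := rfl

theorem J_eq (a : ℝ) : J Pool.Agent.Y981.L2.Rate a =
    Pool.Agent.K6.H23.WA.J Pool.Agent.Y981.L2.Rate a := by
  have h : costs Pool.Agent.Y981.L2.Rate a = Pool.Agent.K6.H23.WA.ccosts Pool.Agent.Y981.L2.Rate a :=
    rfl
  unfold J Pool.Agent.K6.H23.WA.J
  rw [h, Pool.Agent.K6.H23.WA.ccosts_eq Pool.Agent.K6.H23.WA.rateFn]

/-- **Theorem.** There are a convex function `I` on the square `|v₁| + |v₂| ≤ 1`, with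
`I (v₁, v₂) = I (|v₁|, |v₂|) = I (v₂, v₁)`, and a constant `K` such that:
(1) `|log P_n(ω(n) = x) + n I(x / n)| ≤ K (log n)^2` for the uniform `n`-step self-avoiding walk `ω`,
all `n ≥ 2` and every lattice point `x ≠ 0` which it can reach (`I` is the rate function of the
end point);
(2) with `J(a)`, the least cost of a closed curve of total time `1` enclosing the area `a`,
`-(1/(2n)) log P(A_n ≥ a n^2) → J(a)` for all `0 < a < 1/4`;
(3) for all `n ≥ 2`, all `M ≥ 1` with `16 M^2 ≤ n` and all `r ≥ 0`: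
`P(A_n ≥ r) ≤ exp(- 2 n J(r/n^2 - K/M) + K M (log n)^2)`, and, if `r/n^2 + K/M ≤ 1/4`,
`P(A_n ≥ r) ≥ exp(- 2 n J(r/n^2 + K/M) - K M (log n)^2)`;
(4) `s ↦ J(s^2)` is convex on `[0, 1/2]`, `J(1/4) = I(1, 0)`, `I(√a, √a) ≤ J(a)` for
`0 ≤ a ≤ 1/4`, and `J(a) ≤ I(√(2a), √(2a))` for `0 ≤ a ≤ 1/8`;
(5) if `I(v) / |v|^θ → κ > 0` for `v → 0`, with `θ ≥ 2`, then for all `r_n > 0` with
`a_n = r_n / n^2 → 0` and `a_n^(1 + θ/2) n / (log n)^2 → ∞`:
`-log P(A_n ≥ r_n) / (2 n a_n^(θ/2)) → κ π^(θ/2)`. -/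
theorem result : ∃ (I : ℝ × ℝ → ℝ) (K : ℝ), ConvexOn ℝ {v : ℝ × ℝ | |v.1| + |v.2| ≤ 1} I ∧
    (∀ v : ℝ × ℝ, |v.1| + |v.2| ≤ 1 → I (|v.1|, |v.2|) = I v ∧ I (v.2, v.1) = I v) ∧
    (∀ n : ℕ, 2 ≤ n → ∀ x : ℤ × ℤ, x ≠ 0 → (x.1 + x.2 - n) % 2 = 0 → |x.1| + |x.2| ≤ n →
        |Real.log (P n x) + n * I ((x.1 : ℝ) / n, (x.2 : ℝ) / n)| ≤ K * Real.log n ^ 2) ∧
    (∀ a : ℝ, 0 < a → a < 1 / 4 →
      Tendsto (fun n : ℕ => -Real.log (large n (a * (n : ℝ) ^ 2)) / (2 * n)) atTop (𝓝 (J I a))) ∧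
    (∀ n : ℕ, 2 ≤ n → ∀ M : ℕ, 1 ≤ M → 16 * M ^ 2 ≤ n → ∀ r : ℝ, 0 ≤ r →
      large n r ≤ Real.exp (-(2 * n * J I (r / n ^ 2 - K / M) - K * M * Real.log n ^ 2)) ∧
      (r / n ^ 2 + K / M ≤ 1 / 4 →
        Real.exp (-(2 * n * J I (r / n ^ 2 + K / M) + K * M * Real.log n ^ 2)) ≤ large n r)) ∧
    ConvexOn ℝ (Set.Icc (0 : ℝ) (1 / 2)) (fun s => J I (s ^ 2)) ∧ J I (1 / 4) = I (1, 0) ∧
    (∀ a : ℝ, 0 ≤ a → (a ≤ 1 / 4 → I (√a, √a) ≤ J I a) ∧
      (a ≤ 1 / 8 → J I a ≤ I (√(2 * a), √(2 * a)))) ∧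
    (∀ θ κ : ℝ, 2 ≤ θ → 0 < κ →
      Tendsto (fun v : ℝ × ℝ => I v / (√(v.1 ^ 2 + v.2 ^ 2)) ^ θ) (𝓝[≠] 0) (𝓝 κ) →
      ∀ r : ℕ → ℝ, (∀ᶠ n in atTop, 0 < r n) →
      Tendsto (fun n : ℕ => r n / (n : ℝ) ^ 2) atTop (𝓝 0) →
      Tendsto (fun n : ℕ => (r n / (n : ℝ) ^ 2) ^ (1 + θ / 2) * n / Real.log n ^ 2) atTop atTop →
      Tendsto (fun n : ℕ => -Real.log (large n (r n)) / (2 * n * (r n / (n : ℝ) ^ 2) ^ (θ / 2)))
        atTop (𝓝 (κ * Real.pi ^ (θ / 2)))) := by
  obtain ⟨K1, hK1, h1⟩ := Pool.Agent.Y981.L2.ldp_words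
  obtain ⟨K2, C, hK2, hC, h2⟩ := Pool.Agent.K6.H23.WA.par_unif3
  refine ⟨Pool.Agent.Y981.L2.Rate, K1 + K2 + C, Pool.Agent.Y981.L2.convex_rate, ?_, ?_, ?_, ?_, ?_,
    ?_, ?_, ?_⟩
  · intro v hv
    exact ⟨Pool.Agent.K6.H5.JW.rate_abs v hv, Pool.Agent.K6.H5.JW.rate_sw v⟩
  · intro n hn x hx hpar hle
    have hL : 0 ≤ Real.log (n : ℝ) ^ 2 := by positivity
    have h := h1 n hn x.1 x.2 hx hpar hle
    have e1 : K1 * Real.log (n : ℝ) ^ 2 ≤ (K1 + K2 + C) * Real.log (n : ℝ) ^ 2 := by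
      apply mul_le_mul_of_nonneg_right _ hL
      linarith
    unfold P
    rw [c_eq, cx_eq]
    linarith
  · intro a ha0 ha1
    simp only [large_eq, J_eq]
    exact Pool.Agent.K6.H23.WA.main_tendsto ha0 ha1
  · intro n hn M hM hMn r hr
    simp only [large_eq, J_eq]
    obtain ⟨⟨g1, g0⟩, g2⟩ := h2 n hn M hM hMn r hr
    have hn0 : (0 : ℝ) < n := by exact_mod_cast (by omega : 0 < n)
    have hM0 : (0 : ℝ) < M := by exact_mod_cast hM
    have hL : 0 ≤ M * Real.log (n : ℝ) ^ 2 := by positivity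
    have e1 : K2 * (M * Real.log (n : ℝ) ^ 2) ≤ (K1 + K2 + C) * (M * Real.log (n : ℝ) ^ 2) := by
      apply mul_le_mul_of_nonneg_right _ hL
      linarith
    have e2 : C / (M : ℝ) ≤ (K1 + K2 + C) / M := by
      gcongr
      linarith
    constructor
    · rcases lt_or_ge 0 (Pool.Agent.Y981.L2.par n r) with h0 | h0
      · have hmono := Pool.Agent.K6.H23.WA.J_mono Pool.Agent.K6.H23.WA.rateFn
          (show r / (n : ℝ) ^ 2 - (K1 + K2 + C) / M ≤ r / n ^ 2 - C / M by linarith) (g0 h0)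
        refine g1.trans (Real.exp_le_exp.2 ?_)
        have := mul_le_mul_of_nonneg_left hmono (show (0 : ℝ) ≤ 2 * n by positivity)
        linarith
      · exact h0.trans (Real.exp_pos _).le
    · intro hr4
      have hmono := Pool.Agent.K6.H23.WA.J_mono Pool.Agent.K6.H23.WA.rateFn
        (show r / (n : ℝ) ^ 2 + C / M ≤ r / n ^ 2 + (K1 + K2 + C) / M by linarith) hr4
      refine le_trans (Real.exp_le_exp.2 ?_) (g2 (by linarith))
      have := mul_le_mul_of_nonneg_left hmono (show (0 : ℝ) ≤ 2 * n by positivity)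
      linarith
  · simp only [J_eq]
    exact Pool.Agent.K6.H23.WA.J_convex Pool.Agent.K6.H23.WA.rateFn
  · rw [J_eq]
    exact Pool.Agent.K6.H23.WA.J_quarter Pool.Agent.K6.H23.WA.rateFn
  · intro a ha
    simp only [J_eq]
    exact Pool.Agent.K6.H23.WA.J_sandwich Pool.Agent.K6.H23.WA.rateFn ha
  · intro θ κ hθ hκ hrad r hr h0 h1
    simp only [large_eq]
    exact Pool.Agent.K6.H23.WA.main_moderate hθ hκ hrad h0 hr h1

end Pool.Agent.Results.MP_f6626d_co.AreaLargeDeviations
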