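import Pool.Agent.K6.H96.SP.Reg

/-!
Self-avoiding polygons on the square lattice: the law of the area is regular to all orders, in the
perimeter and in the area jointly, in total variation and locally.
-/

set_option autoImplicit false

namespace Pool.Agent.Results.MP_f6626d_co.AreaLawRegularInBoth

open scoped Classical

/-- a closed nearest-neighbour loop on `ℤ²` with `m` steps, rooted at the origin and oriented,
that visits no vertex twice -/
def IsLoop (m : ℕ) (f : ZMod m → ℤ × ℤ) : Prop :=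
  f 0 = 0 ∧ Function.Injective f ∧
    ∀ i : ZMod m, |(f (i + 1)).1 - (f i).1| + |(f (i + 1)).2 - (f i).2| = 1

/-- the edge from `f k` to `f (k+1)` is horizontal, joins the columns `x = a` and `x = a + 1`, and
has height larger than `b`: it lies above the unit cell `[a, a+1] × [b, b+1]` -/
def Above (m : ℕ) (f : ZMod m → ℤ × ℤ) (a b : ℤ) (k : ZMod m) : Prop :=
  (((f k).1 = a ∧ (f (k + 1)).1 = a + 1) ∨ ((f k).1 = a + 1 ∧ (f (k + 1)).1 = a)) ∧ b < (f k).2

/-- the unit cell `[a, a+1] × [b, b+1]` is enclosed by the loop: the vertical ray from the cell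
upwards crosses an odd number of edges -/
def Encl (m : ℕ) (f : ZMod m → ℤ × ℤ) (c : ℤ × ℤ) : Prop :=
  Odd (Nat.card {k : ZMod m // Above m f c.1 c.2 k})

/-- the area: the number of unit cells enclosed by the loop -/
noncomputable def area (m : ℕ) (f : ZMod m → ℤ × ℤ) : ℕ := Nat.card {c : ℤ × ℤ // Encl m f c}

/-- the mean `E_n[h(A_n)]`, where `A_n` is the area of the uniform self-avoiding polygon of
perimeter `2 n`: the average over the rooted oriented polygons -/
noncomputable def mean (n : ℕ) (h : ℕ → ℝ) : ℝ :=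
  (∑ᶠ f ∈ {f : ZMod (2 * n) → ℤ × ℤ | IsLoop (2 * n) f}, h (area (2 * n) f)) /
    ({f : ZMod (2 * n) → ℤ × ℤ | IsLoop (2 * n) f}.ncard : ℝ)

/-- the probability `P(A_n = a)`, for an integer `a` -/
noncomputable def prob (n : ℕ) (a : ℤ) : ℝ := mean n (fun b => if (b : ℤ) = a then 1 else 0)

open Pool.Agent.K6.H96.SP Finset Pool.Agent.H739K

theorem mean_EL (n : ℕ) (h : ℕ → ℝ) : mean n h = EL (fun _ _ a => h a) n := rfl

theorem SS_eq (r k n : ℕ) (hn : 2 ≤ n) (h : ℕ → ℝ) :
    ∑ i ∈ range (r + 1), ∑ j ∈ range (k + 1), (-1 : ℝ) ^ (i + j) * (r.choose i : ℝ) *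
      (k.choose j : ℝ) * mean (n + i) (fun a => h (a + j)) = SS r k (2 * n - 1) h := by
  unfold SS
  refine sum_congr rfl (fun i _ => ?_)
  have e : 2 * n - 1 + 2 * i = 2 * (n + i) - 1 := by omega
  rw [e]
  have h1 : ∀ j, mean (n + i) (fun a => h (a + j)) =
      (∑ w ∈ KP (2 * (n + i) - 1), h (ar w + j)) / ((KP (2 * (n + i) - 1)).card : ℝ) := fun j => by
    rw [mean_EL, EL_eq _ (by omega)]
  rw [sum_comm, sum_div, mul_sum]
  refine sum_congr rfl (fun j _ => ?_)
  rw [h1, ← mul_sum, pow_add]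
  ring

/-- **Theorem.** Let `A_n` be the area of the uniform self-avoiding polygon of perimeter `2 n` on
`ℤ²`. For all `r` and `k` there is `K` such that for all `n ≥ 2`, with `ε = log n / √n`:

(1) for all functions `h` with values in `[-1, 1]`, the difference of order `r` in `n` and of order
`k` in the area of the law of `A_n`, integrated against `h`, is at most `K ε^(r+k)`: the law of
`A_n` is regular to all orders in both variables, in total variation. For `r = 1`, `k = 0`: the
total variation distance of the laws of `A_{n+1}` and `A_n` (without any normalisation) is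
`O(log n / √n)`;

(2) the difference of order `r` in `n` and of order `k` in `a` of the probabilities `P(A_n = a)` is
at most `K ε^(r+k+1)`, for all `a`. -/
theorem result : ∀ r k : ℕ, ∃ K : ℝ, ∀ n : ℕ, 2 ≤ n →
    (∀ h : ℕ → ℝ, (∀ a, |h a| ≤ 1) →
      |∑ i ∈ range (r + 1), ∑ j ∈ range (k + 1), (-1 : ℝ) ^ (i + j) * (r.choose i : ℝ) *
        (k.choose j : ℝ) * mean (n + i) (fun a => h (a + j))| ≤
        K * (Real.log n / Real.sqrt n) ^ (r + k)) ∧
    ∀ a : ℤ, |∑ i ∈ range (r + 1), ∑ j ∈ range (k + 1), (-1 : ℝ) ^ (i + j) * (r.choose i : ℝ) *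
        (k.choose j : ℝ) * prob (n + i) (a - j)| ≤
        K * (Real.log n / Real.sqrt n) ^ (r + k + 1) := by
  intro r k
  obtain ⟨K, hK, h⟩ := words r k
  have hrate : ∀ n : ℕ, 2 ≤ n → ∀ p : ℕ,
      (Real.log ((2 * n - 1 : ℕ) : ℝ) / Real.sqrt ((2 * n - 1 : ℕ) : ℝ)) ^ p ≤
        2 ^ p * (Real.log n / Real.sqrt n) ^ p := by
    intro n hn p
    have h1 := rate_conv hn le_rfl p
    have h2 : ∀ m : ℕ, 2 ≤ m → Real.sqrt ((Real.log (m : ℝ) ^ 2 + 0) / (m : ℝ)) =
        Real.log m / Real.sqrt m := fun m hm => by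
      have h3 : 0 ≤ Real.log (m : ℝ) := Real.log_natCast_nonneg m
      rw [add_zero, Real.sqrt_div (by positivity), Real.sqrt_sq h3]
    rwa [h2 _ (by omega), h2 _ hn] at h1
  refine ⟨K * 2 ^ (r + k + 1), fun n hn => ?_⟩
  obtain ⟨h1, h2⟩ := h (2 * n - 1) (by omega) (by omega)
  have hy : 0 ≤ Real.log (n : ℝ) / Real.sqrt n :=
    div_nonneg (Real.log_natCast_nonneg n) (Real.sqrt_nonneg _)
  refine ⟨fun g hg => ?_, fun a => ?_⟩
  · rw [SS_eq r k n hn g]
    refine (h1 g hg).trans ?_
    calc K * (Real.log ((2 * n - 1 : ℕ) : ℝ) / Real.sqrt ((2 * n - 1 : ℕ) : ℝ)) ^ (r + k)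
        ≤ K * (2 ^ (r + k) * (Real.log n / Real.sqrt n) ^ (r + k)) :=
          mul_le_mul_of_nonneg_left (hrate n hn _) hK.le
      _ ≤ K * (2 ^ (r + k + 1) * (Real.log n / Real.sqrt n) ^ (r + k)) := by
          have : (2 : ℝ) ^ (r + k) ≤ 2 ^ (r + k + 1) := pow_le_pow_right₀ (by norm_num) (by omega)
          gcongr
      _ = _ := by ring
  · have h3 : ∀ c : ℕ, |SS r k (2 * n - 1) (fun b => if b = c then 1 else 0)| ≤
        K * 2 ^ (r + k + 1) * (Real.log n / Real.sqrt n) ^ (r + k + 1) := fun c => by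
      rw [mul_assoc]
      exact (h2 c).trans (mul_le_mul_of_nonneg_left (hrate n hn _) hK.le)
    by_cases ha : 0 ≤ a
    · obtain ⟨c, rfl⟩ := Int.eq_ofNat_of_zero_le ha
      have h4 := h3 c
      rw [← SS_eq r k n hn] at h4
      refine le_trans (le_of_eq ?_) h4
      congr 1
      refine sum_congr rfl (fun i _ => sum_congr rfl (fun j _ => ?_))
      congr 1
      unfold prob
      congr 1
      funext b
      have : ((b : ℤ) = (c : ℤ) - (j : ℤ)) ↔ b + j = c := by omega
      simp only [this]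
    · have h4 : ∀ i j : ℕ, prob (n + i) (a - j) = 0 := by
        intro i j
        unfold prob mean
        have h5 : ∀ b : ℕ, ¬ ((b : ℤ) = a - (j : ℤ)) := fun b => by omega
        simp only [h5, if_false]
        simp
      simp only [h4, mul_zero, sum_const_zero, abs_zero]
      positivity

end Pool.Agent.Results.MP_f6626d_co.AreaLawRegularInBoth
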