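import Pool.Agent.K6.H36.PJ.Rate2

/-!
# The lower tail of the area of self-avoiding polygons

`A_n` is the area of the uniform square-lattice self-avoiding polygon of perimeter `2 n`. The rate
`I(x) = lim -(1/(2n)) log P(A_n ≤ 2 n x)` exists, is convex, and controls all finite perimeters:
`P(A_n ≤ r) ≤ exp(K (log n)² - 2 n I((r+1)/(2n)))`. Chains of `n / m` polygons of perimeter about
`2 m` give the lower bound `P(A_n ≤ (2B+1) n/m) ≥ exp(-K (n/m) (log m)²)`, where `B` bounds the mean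
areas at the perimeters `2 m, ..., 4 m - 2`. For the conjectured order `n^(3/2)` of the mean area the
two bounds are `P(A_n ≤ C n √m) ≥ exp(-K (n/m) (log m)²)` and, if `I(x) ≥ c x^(-2)`,
`P(A_n ≤ t n^(3/2)) ≤ exp(K (log n)² - 2 c t^(-2))`. The exponent is the one of the lower tail of the
area under the Brownian excursion, the limit law of the staircase polygons.

Method. Two polygons are joined at the last vertex of the top row of the first and the last vertex of
the bottom row of the second; the area of the join is the sum of the areas plus one, and the pair and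
the root are recovered from the rooted join.
-/

set_option autoImplicit false

namespace Pool.Agent.Results.MP_f6626d_co.AreaLowerTail

open Filter Topology

/-- a closed nearest-neighbour loop on `ℤ²` with `m` steps, rooted at the origin and oriented,
that visits no vertex twice -/
def IsLoop (m : ℕ) (f : ZMod m → ℤ × ℤ) : Prop :=
  f 0 = 0 ∧ Function.Injective f ∧
    ∀ i : ZMod m, |(f (i + 1)).1 - (f i).1| + |(f (i + 1)).2 - (f i).2| = 1

/-- the edge from `f k` to `f (k+1)` is horizontal, joins the columns `x = a` and `x = a + 1`, and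
has height larger than `b`: it lies above the unit cell `[a, a+1] × [b, b+1]` -/
def Above (m : ℕ) (f : ZMod m → ℤ × ℤ) (a b : ℤ) (k : ZMod m) : Prop :=
  (((f k).1 = a ∧ (f (k + 1)).1 = a + 1) ∨ ((f k).1 = a + 1 ∧ (f (k + 1)).1 = a)) ∧ b < (f k).2

/-- the unit cell `[a, a+1] × [b, b+1]` is enclosed by the loop: the vertical ray from the cell
upwards crosses an odd number of edges -/
def Encl (m : ℕ) (f : ZMod m → ℤ × ℤ) (c : ℤ × ℤ) : Prop :=
  Odd (Nat.card {k : ZMod m // Above m f c.1 c.2 k})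

/-- the area: the number of unit cells enclosed by the loop -/
noncomputable def area (m : ℕ) (f : ZMod m → ℤ × ℤ) : ℕ := Nat.card {c : ℤ × ℤ // Encl m f c}

/-- the mean area `E[A_n]` of the (rooted, oriented) self-avoiding polygons of perimeter `2 n` -/
noncomputable def meanArea (n : ℕ) : ℝ :=
  (∑ᶠ f ∈ {f : ZMod (2 * n) → ℤ × ℤ | IsLoop (2 * n) f}, (area (2 * n) f : ℝ)) /
    ({f : ZMod (2 * n) → ℤ × ℤ | IsLoop (2 * n) f}.ncard : ℝ)

/-- `P(A_n ≤ r)`: the proportion of the self-avoiding polygons of perimeter `2 n` with area at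
most `r` -/
noncomputable def small (n : ℕ) (r : ℝ) : ℝ :=
  ({f : ZMod (2 * n) → ℤ × ℤ | IsLoop (2 * n) f ∧ (area (2 * n) f : ℝ) ≤ r}.ncard : ℝ) /
    ({f : ZMod (2 * n) → ℤ × ℤ | IsLoop (2 * n) f}.ncard : ℝ)

open Pool.Agent.K6.H36.PJ

theorem mean_eq {n : ℕ} (hn : 1 ≤ n) : meanArea n = mA n := by
  have h : meanArea n = (∑ᶠ f ∈ {f : ZMod (2 * n) → ℤ × ℤ |
      Pool.Agent.N223.PS.IsLoop (2 * n) f}, (Pool.Agent.N223.PS.area (2 * n) f : ℝ)) /
      (({f : ZMod (2 * n) → ℤ × ℤ | Pool.Agent.N223.PS.IsLoop (2 * n) f}.ncard : ℕ) : ℝ) := rfl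
  rw [h, finsum_LF hn, ncard_LF hn]
  rfl

theorem small_eq {n : ℕ} (hn : 1 ≤ n) (r : ℝ) :
    small n r = Pool.Agent.K6.H36.PJ.ln (2 * n) r / Zl 0 (2 * n) := by
  classical
  have h : small n r = (({f : ZMod (2 * n) → ℤ × ℤ | Pool.Agent.N223.PS.IsLoop (2 * n) f ∧
      (Pool.Agent.N223.PS.area (2 * n) f : ℝ) ≤ r}.ncard : ℕ) : ℝ) /
      (({f : ZMod (2 * n) → ℤ × ℤ | Pool.Agent.N223.PS.IsLoop (2 * n) f}.ncard : ℕ) : ℝ) := rfl
  rw [h, ncard_LF hn]
  congr 1
  unfold Pool.Agent.K6.H36.PJ.ln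
  rw [← Finset.sum_filter, Finset.sum_const, nsmul_eq_mul, mul_one, ← Set.ncard_coe_finset]
  congr 2
  ext f
  rw [Finset.coe_filter]
  constructor
  · rintro ⟨h1, h2⟩
    exact ⟨(mem_LF (by omega)).2 h1, h2⟩
  · rintro ⟨h1, h2⟩
    exact ⟨(mem_LF (by omega)).1 h1, h2⟩

/-- **Theorem.** There are a function `I` and a constant `K` such that:
* `I` is convex, nonincreasing and nonnegative on `[1/2, ∞)`, and
  `-(1/(2n)) log P(A_n ≤ 2 n x) → I(x)` for all `x > 1/2`;
* `P(A_n ≤ r) ≤ exp(K (log n)² - 2 n I((r + 1) / (2n)))` for all `n ≥ 2` and all `r ≥ n - 1`;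
* `I((2 E[A_n] + 1) / (2n)) ≤ K (log n)² / n` for all `n ≥ 2`;
* for all `2 ≤ m ≤ n` and all `B` with `E[A_j] ≤ B` for `m ≤ j < 2 m`:
  `P(A_n ≤ (2 B + 1) n / m) ≥ exp(-K (n / m) (log m)²)`;
* if `a ≥ 1` and `E[A_j] ≤ C j^a` for all `j ≥ 2`, then there is `C'` with
  `P(A_n ≤ C' n m^(a - 1)) ≥ exp(-K (n / m) (log m)²)` for all `2 ≤ m ≤ n`;
* if `s > 0` and `I(x) ≥ c x^(-s)` for all `x ≥ 1`, where `c > 0`, then
  `P(A_n ≤ r) ≤ exp(K (log n)² - 2 c n (n / r)^s)` for all `n ≥ 2` and `r ≥ n`, and there is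
  `c' > 0` with `E[A_n] ≥ c' n (n / (log n)²)^(1/s)` for all `n ≥ 2`. -/
theorem result : ∃ (I : ℝ → ℝ) (K : ℝ),
    ConvexOn ℝ (Set.Ici (1 / 2)) I ∧ AntitoneOn I (Set.Ici (1 / 2)) ∧
    (∀ x : ℝ, 1 / 2 ≤ x → 0 ≤ I x) ∧
    (∀ x : ℝ, 1 / 2 < x →
      Tendsto (fun n : ℕ => -Real.log (small n (2 * n * x)) / (2 * n)) atTop (𝓝 (I x))) ∧
    (∀ n : ℕ, 2 ≤ n → ∀ r : ℝ, (n : ℝ) - 1 ≤ r →
      small n r ≤ Real.exp (K * Real.log n ^ 2 - 2 * n * I ((r + 1) / (2 * n)))) ∧
    (∀ n : ℕ, 2 ≤ n → I ((2 * meanArea n + 1) / (2 * n)) ≤ K * Real.log n ^ 2 / n) ∧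
    (∀ m n : ℕ, 2 ≤ m → m ≤ n → ∀ B : ℝ, (∀ j, m ≤ j → j < 2 * m → meanArea j ≤ B) →
      Real.exp (-(K * (n / m) * Real.log m ^ 2)) ≤ small n ((2 * B + 1) * (n / m))) ∧
    (∀ a C : ℝ, 1 ≤ a → (∀ j : ℕ, 2 ≤ j → meanArea j ≤ C * (j : ℝ) ^ a) →
      ∃ C' : ℝ, ∀ m n : ℕ, 2 ≤ m → m ≤ n →
        Real.exp (-(K * (n / m) * Real.log m ^ 2)) ≤ small n (C' * n * (m : ℝ) ^ (a - 1))) ∧
    (∀ s c : ℝ, 0 < s → 0 < c → (∀ x : ℝ, 1 ≤ x → c * x ^ (-s) ≤ I x) →
      (∀ n : ℕ, 2 ≤ n → ∀ r : ℝ, (n : ℝ) ≤ r →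
        small n r ≤ Real.exp (K * Real.log n ^ 2 - 2 * c * n * (n / r) ^ s)) ∧
      ∃ c' : ℝ, 0 < c' ∧ ∀ n : ℕ, 2 ≤ n →
        c' * (n * ((n : ℝ) / Real.log n ^ 2) ^ (1 / s)) ≤ meanArea n) := by
  obtain ⟨K1, hK1, h1⟩ := small_up
  obtain ⟨K2, hK2, h2⟩ := II_mean
  obtain ⟨K3, hK3, h3⟩ := small_low
  have hup : ∀ n : ℕ, 2 ≤ n → ∀ r : ℝ, (n : ℝ) - 1 ≤ r →
      small n r ≤ Real.exp ((K1 + K2 + K3) * Real.log n ^ 2 - 2 * n * II ((r + 1) / (2 * n))) := by
    intro n hn r hr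
    rw [small_eq (by omega)]
    refine (h1 n hn r hr).trans (Real.exp_le_exp.2 ?_)
    have : K1 * Real.log n ^ 2 ≤ (K1 + K2 + K3) * Real.log n ^ 2 :=
      mul_le_mul_of_nonneg_right (by linarith) (sq_nonneg _)
    linarith
  have hlow : ∀ m n : ℕ, 2 ≤ m → m ≤ n → ∀ B : ℝ, (∀ j, m ≤ j → j < 2 * m → meanArea j ≤ B) →
      Real.exp (-((K1 + K2 + K3) * (n / m) * Real.log m ^ 2)) ≤
        small n ((2 * B + 1) * (n / m)) := by
    intro m n hm hmn B hB
    rw [small_eq (by omega)]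
    refine le_trans (Real.exp_le_exp.2 ?_) (h3 m n hm hmn B (fun j hj1 hj2 => by
      rw [← mean_eq (by omega)]
      exact hB j hj1 hj2))
    apply neg_le_neg
    apply mul_le_mul_of_nonneg_right _ (sq_nonneg _)
    apply mul_le_mul_of_nonneg_right _ (by positivity)
    linarith
  have hmean : ∀ n : ℕ, 2 ≤ n →
      II ((2 * meanArea n + 1) / (2 * n)) ≤ (K1 + K2 + K3) * Real.log n ^ 2 / n := by
    intro n hn
    rw [mean_eq (by omega)]
    refine (h2 n hn).trans ?_
    have hn0 : (0 : ℝ) < n := by exact_mod_cast (by omega : 0 < n)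
    apply div_le_div_of_nonneg_right _ hn0.le
    exact mul_le_mul_of_nonneg_right (by linarith) (sq_nonneg _)
  refine ⟨II, K1 + K2 + K3, II_convex, II_anti, fun x hx => II_nonneg hx, ?_, hup, hmean, hlow,
    ?_, ?_⟩
  · intro x hx
    refine (II_tendsto hx).congr' ?_
    filter_upwards [eventually_ge_atTop 1] with n hn
    rw [small_eq hn]
  · intro a C ha hC
    have hC0 : 0 ≤ C := by
      have h5 := hC 2 le_rfl
      rw [mean_eq (by norm_num)] at h5
      have h6 := (mA_ge_one le_rfl).trans h5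
      by_contra hneg
      push Not at hneg
      have h7 : C * ((2 : ℕ) : ℝ) ^ a ≤ 0 :=
        mul_nonpos_of_nonpos_of_nonneg hneg.le (by positivity)
      linarith
    refine ⟨2 * (C * 2 ^ a) + 1, fun m n hm hmn => ?_⟩
    have hmr : (2 : ℝ) ≤ m := by exact_mod_cast hm
    have hm0 : (0 : ℝ) < m := by linarith
    have hn0 : (0 : ℝ) < n := by exact_mod_cast (by omega : 0 < n)
    have h5 := hlow m n hm hmn (C * (2 * m) ^ a) (by
      intro j hj1 hj2
      refine (hC j (by omega)).trans ?_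
      apply mul_le_mul_of_nonneg_left _ hC0
      apply Real.rpow_le_rpow (Nat.cast_nonneg _) _ (by linarith)
      exact_mod_cast hj2.le)
    refine h5.trans ?_
    rw [small_eq (by omega), small_eq (by omega)]
    apply div_le_div_of_nonneg_right _ (Zl_pos 0 (by omega)).le
    apply ln_mono
    have hma : (1 : ℝ) ≤ (m : ℝ) ^ a := Real.one_le_rpow (by linarith) (by linarith)
    have e : (m : ℝ) ^ (a - 1) = (m : ℝ) ^ a / m := by
      rw [Real.rpow_sub hm0, Real.rpow_one]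
    rw [e, Real.mul_rpow (by norm_num) hm0.le]
    have e2 : (2 * (C * (2 ^ a * (m : ℝ) ^ a)) + 1) * (n / m) =
      (2 * (C * 2 ^ a) * (m : ℝ) ^ a + 1) * n / m := by ring
    have e3 : (2 * (C * 2 ^ a) + 1) * n * ((m : ℝ) ^ a / m) =
      (2 * (C * 2 ^ a) * (m : ℝ) ^ a + (m : ℝ) ^ a) * n / m := by ring
    rw [e2, e3]
    apply div_le_div_of_nonneg_right _ hm0.le
    apply mul_le_mul_of_nonneg_right _ hn0.le
    linarith
  · intro s c hs hc hI
    refine ⟨?_, ?_⟩
    · intro n hn r hr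
      have hnr : (2 : ℝ) ≤ n := by exact_mod_cast hn
      have hn0 : (0 : ℝ) < n := by linarith
      have hr0 : 0 < r := by linarith
      refine (hup n hn r (by linarith)).trans (Real.exp_le_exp.2 ?_)
      have h5 : 1 ≤ r / n := by rwa [one_le_div hn0]
      have h6 : (r + 1) / (2 * n) ≤ r / n := by
        rw [div_le_div_iff₀ (by positivity) hn0]
        nlinarith
      have h7 : 1 / 2 ≤ (r + 1) / (2 * n) := by
        rw [le_div_iff₀ (by positivity)]
        linarith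
      have h8 := II_anti (Set.mem_Ici.2 h7) (Set.mem_Ici.2 (h7.trans h6)) h6
      have h9 := hI (r / n) h5
      have e : (r / n) ^ (-s) = ((n : ℝ) / r) ^ s := by
        rw [Real.rpow_neg (by positivity), ← Real.inv_rpow (by positivity), inv_div]
      rw [e] at h9
      have h10 := mul_le_mul_of_nonneg_left (h9.trans h8) (by positivity : (0 : ℝ) ≤ 2 * n)
      linarith
    · have hK1' : 0 < K1 + K2 + K3 + 1 := by positivity
      refine ⟨1 / 2 * (c / (K1 + K2 + K3 + 1)) ^ (1 / s), by positivity, fun n hn => ?_⟩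
      have hnr : (2 : ℝ) ≤ n := by exact_mod_cast hn
      have hn0 : (0 : ℝ) < n := by linarith
      have hL : 0 < Real.log n := Real.log_pos (by linarith)
      have h5 := hmean n hn
      have hA : (n : ℝ) / 2 ≤ meanArea n := by
        rw [mean_eq (by omega)]
        exact mA_ge_half hn
      obtain ⟨y, hy⟩ : ∃ y : ℝ, y = 2 * meanArea n / n := ⟨_, rfl⟩
      have hy1 : 1 ≤ y := by
        rw [hy, le_div_iff₀ hn0]
        linarith
      have hy0 : 0 < y := by linarith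
      have h6 : (2 * meanArea n + 1) / (2 * n) ≤ y := by
        rw [hy, div_le_div_iff₀ (by positivity) hn0]
        nlinarith
      have h7 : 1 / 2 ≤ (2 * meanArea n + 1) / (2 * n) := by
        rw [le_div_iff₀ (by positivity)]
        linarith
      have h8 := II_anti (Set.mem_Ici.2 h7) (Set.mem_Ici.2 (h7.trans h6)) h6
      have h9 := ((hI y hy1).trans h8).trans h5
      rw [Real.rpow_neg hy0.le] at h9
      have hys : 0 < y ^ s := Real.rpow_pos_of_pos hy0 _
      have h10 : c / (K1 + K2 + K3 + 1) * ((n : ℝ) / Real.log n ^ 2) ≤ y ^ s := by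
        have h11 : c * (y ^ s)⁻¹ ≤ (K1 + K2 + K3 + 1) * Real.log n ^ 2 / n := by
          refine h9.trans ?_
          apply div_le_div_of_nonneg_right _ hn0.le
          apply mul_le_mul_of_nonneg_right _ (sq_nonneg _)
          linarith
        rw [← div_eq_mul_inv, div_le_div_iff₀ hys hn0] at h11
        rw [div_mul_div_comm, div_le_iff₀ (by positivity)]
        linarith
      have h12 := Real.rpow_le_rpow (by positivity) h10 (by positivity : 0 ≤ 1 / s)
      rw [← Real.rpow_mul hy0.le, mul_one_div_cancel hs.ne', Real.rpow_one,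
        Real.mul_rpow (by positivity) (by positivity)] at h12
      have e : meanArea n = 1 / 2 * n * y := by
        rw [hy]
        field_simp
      rw [e]
      calc 1 / 2 * (c / (K1 + K2 + K3 + 1)) ^ (1 / s) *
            (n * ((n : ℝ) / Real.log n ^ 2) ^ (1 / s))
          = 1 / 2 * n * ((c / (K1 + K2 + K3 + 1)) ^ (1 / s) *
            ((n : ℝ) / Real.log n ^ 2) ^ (1 / s)) := by ring
        _ ≤ _ := mul_le_mul_of_nonneg_left h12 (by positivity)

end Pool.Agent.Results.MP_f6626d_co.AreaLowerTail
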