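import Pool.Agent.K6.H36.PJ.Dm15

/-!
# The law of the area of dense self-avoiding polygons

Self-avoiding polygons `P` of `ℤ²` in a square of side `w` with the weight `x^|P| e^(-e area(P))`,
where `e` is any real number. The pressure `λ(x, e)` exists and satisfies the inside-outside duality
`λ(x, -e) = λ(x, e) + e`; for `e ≥ 0` it is positive exactly if `log(μ x)` exceeds the rate `g(e)` of
the Laplace transform of the area of the uniform polygon, so that inflated polygons (`e < 0`) fill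
the square, `λ(x, e) = |e|`, exactly if `log(μ x) ≤ g(|e|)`. For `e = 0` and weights `x^|P|` the area
of the polygon satisfies a large deviation principle with speed `w²`: the probabilities of
`area ≤ α w²` and of `area ≥ (1 - α) w²` both decay with the rate `J(x, α)`, the Legendre transform
of the pressure. In the dense phase `x > 1/μ` the area is a proportion of the square that is bounded
away from `0` and `1`, up to probabilities exponentially small in `w²`; it concentrates at the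
proportion `1/2` if and only if the pressure is differentiable in `e` at `e = 0`. The rate function
bounds the law of the area of uniform polygons of every perimeter in squares of every side.

Method. Polygons in a box are classified by the columns of the last vertices of the bottom row and
of the top row, and joined in stacks (see `MP_c23e5f_co.SupercriticalPressure`); the area of a join
is the sum of the areas plus one. Stacks with two kinds of polygons, joined by a thin connector, give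
the concavity of the entropy of the area. The exchange of the inside and the outside joins the
polygon with the boundary of a slightly larger square.
-/

set_option autoImplicit false

namespace Pool.Agent.Results.MP_f6626d_co.DensePhaseArea

open Filter Topology

/-- a closed nearest-neighbour loop on `ℤ²` with `m` steps, rooted at the origin and oriented,
that visits no vertex twice -/
def IsLoop (m : ℕ) (f : ZMod m → ℤ × ℤ) : Prop :=
  f 0 = 0 ∧ Function.Injective f ∧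
    ∀ i : ZMod m, |(f (i + 1)).1 - (f i).1| + |(f (i + 1)).2 - (f i).2| = 1

/-- the edge from `f k` to `f (k+1)` is horizontal, joins the columns `x = a` and `x = a + 1`, and
has height larger than `b`: it lies above the unit cell `[a, a+1] × [b, b+1]` -/
def Above (m : ℕ) (f : ZMod m → ℤ × ℤ) (a b : ℤ) (k : ZMod m) : Prop :=
  (((f k).1 = a ∧ (f (k + 1)).1 = a + 1) ∨ ((f k).1 = a + 1 ∧ (f (k + 1)).1 = a)) ∧ b < (f k).2

/-- the unit cell `[a, a+1] × [b, b+1]` is enclosed by the loop: the vertical ray from the cell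
upwards crosses an odd number of edges -/
def Encl (m : ℕ) (f : ZMod m → ℤ × ℤ) (c : ℤ × ℤ) : Prop :=
  Odd (Nat.card {k : ZMod m // Above m f c.1 c.2 k})

/-- the area: the number of unit cells enclosed by the loop -/
noncomputable def area (m : ℕ) (f : ZMod m → ℤ × ℤ) : ℕ := Nat.card {c : ℤ × ℤ // Encl m f c}

/-- the width (horizontal extent) of a loop -/
noncomputable def width (m : ℕ) (f : ZMod m → ℤ × ℤ) : ℕ :=
  sSup {w : ℕ | ∃ i j, w = ((f i).1 - (f j).1).natAbs}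

/-- the height (vertical extent) of a loop -/
noncomputable def height (m : ℕ) (f : ZMod m → ℤ × ℤ) : ℕ :=
  sSup {w : ℕ | ∃ i j, w = ((f i).2 - (f j).2).natAbs}

/-- expectation under the uniform law on the (rooted, oriented) self-avoiding polygons of
perimeter `2 n` -/
noncomputable def E (n : ℕ) (F : (ZMod (2 * n) → ℤ × ℤ) → ℝ) : ℝ :=
  (∑ᶠ f ∈ {f : ZMod (2 * n) → ℤ × ℤ | IsLoop (2 * n) f}, F f) /
    ({f : ZMod (2 * n) → ℤ × ℤ | IsLoop (2 * n) f}.ncard : ℝ)

/-- the number of the rooted oriented polygons of perimeter `2 n` (`4 n` times the number of the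
polygons up to translation, for `n ≥ 2`) -/
noncomputable def N (n : ℕ) : ℕ := {f : ZMod (2 * n) → ℤ × ℤ | IsLoop (2 * n) f}.ncard

/-- the mean area at perimeter `2 n` -/
noncomputable def meanArea (n : ℕ) : ℝ := E n (fun f => (area (2 * n) f : ℝ))

/-- the mean width at perimeter `2 n` -/
noncomputable def meanWidth (n : ℕ) : ℝ := E n (fun f => (width (2 * n) f : ℝ))

/-- the Laplace transform `E_n[exp(-e area)]` of the area at perimeter `2 n` -/
noncomputable def lap (n : ℕ) (e : ℝ) : ℝ := E n (fun f => Real.exp (-(e * area (2 * n) f)))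

/-- the proportion of the polygons of perimeter `2 n` with width and height at most `w` and area at
most `r` -/
noncomputable def small (n w : ℕ) (r : ℝ) : ℝ :=
  ({f : ZMod (2 * n) → ℤ × ℤ | IsLoop (2 * n) f ∧ width (2 * n) f ≤ w ∧ height (2 * n) f ≤ w ∧
    (area (2 * n) f : ℝ) ≤ r}.ncard : ℝ) /
    ({f : ZMod (2 * n) → ℤ × ℤ | IsLoop (2 * n) f}.ncard : ℝ)

/-- the rooted oriented polygons of perimeter `2 n` whose width and height are at most `w` -/
def Box (w n : ℕ) : Set (ZMod (2 * n) → ℤ × ℤ) :=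
  {f | IsLoop (2 * n) f ∧ width (2 * n) f ≤ w ∧ height (2 * n) f ≤ w}

/-- the sum of `x^|P| φ(area(P))` over all self-avoiding polygons `P` in a square of side `w`, up to
translation. Each of them has at most `(w + 1)²` vertices and corresponds to `4 n` rooted oriented
polygons, where `2 n = |P|`. -/
noncomputable def S (x : ℝ) (w : ℕ) (φ : ℕ → ℝ) : ℝ :=
  ∑ n ∈ Finset.Icc 2 ((w + 1) ^ 2), (∑ᶠ f ∈ Box w n, φ (area (2 * n) f)) / (4 * n) * x ^ (2 * n)

/-- the partition function: the weight of `P` is `x^|P| e^(-e area(P))` -/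
noncomputable def Z (x e : ℝ) (w : ℕ) : ℝ := S x w (fun a => Real.exp (-(e * a)))

open scoped Classical in
/-- the probability that the area is in `T`, for the random polygon in the square of side `w` whose
law has the weights `x^|P|` -/
noncomputable def Pr (x : ℝ) (w : ℕ) (T : Set ℝ) : ℝ :=
  S x w (fun a => if (a : ℝ) ∈ T then 1 else 0) / S x w (fun _ => 1)

/-- the mean area of the random polygon in the square of side `w` whose law has the weights
`x^|P|` -/
noncomputable def M (x : ℝ) (w : ℕ) : ℝ := S x w (fun a => (a : ℝ)) / S x w (fun _ => 1)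

open Pool.Agent.K6.H36.PJ

theorem N_eq {n : ℕ} (hn : 1 ≤ n) : (N n : ℝ) = Zl 0 (2 * n) := by
  have : NeZero (2 * n) := ⟨by omega⟩
  have e : N n = {f : ZMod (2 * n) → ℤ × ℤ | Pool.Agent.N223.PS.IsLoop (2 * n) f}.ncard := rfl
  rw [Zl_zero, e]
  unfold LF
  rw [dif_pos (loops_finite (2 * n)), Set.ncard_eq_toFinset_card _ (loops_finite (2 * n))]

theorem height_eq {m : ℕ} (f : ZMod m → ℤ × ℤ) : height m f = wid m (swp f) := rfl

theorem lap_eq {n : ℕ} (hn : 1 ≤ n) (ε : ℝ) : lap n ε = Zl ε (2 * n) / Zl 0 (2 * n) := by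
  have h : lap n ε = (∑ᶠ f ∈ {f : ZMod (2 * n) → ℤ × ℤ |
      Pool.Agent.N223.PS.IsLoop (2 * n) f}, Real.exp (-(ε * Pool.Agent.N223.PS.area (2 * n) f))) /
      (({f : ZMod (2 * n) → ℤ × ℤ | Pool.Agent.N223.PS.IsLoop (2 * n) f}.ncard : ℕ) : ℝ) := rfl
  rw [h, finsum_LF hn, ncard_LF hn]
  rfl

theorem A_eq {n : ℕ} (hn : 1 ≤ n) : meanArea n = mA n := by
  have h : meanArea n = (∑ᶠ f ∈ {f : ZMod (2 * n) → ℤ × ℤ |
      Pool.Agent.N223.PS.IsLoop (2 * n) f}, (Pool.Agent.N223.PS.area (2 * n) f : ℝ)) /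
      (({f : ZMod (2 * n) → ℤ × ℤ | Pool.Agent.N223.PS.IsLoop (2 * n) f}.ncard : ℕ) : ℝ) := rfl
  rw [h, finsum_LF hn, ncard_LF hn]
  rfl

theorem W_eq {n : ℕ} (hn : 1 ≤ n) : meanWidth n = mW n := by
  have : NeZero (2 * n) := ⟨by omega⟩
  have h : meanWidth n = (∑ᶠ f ∈ {f : ZMod (2 * n) → ℤ × ℤ | Pool.Agent.N223.PS.IsLoop (2 * n) f},
      (wid (2 * n) f : ℝ)) / (N n : ℝ) := rfl
  rw [h, N_eq hn]
  unfold mW
  congr 1
  rw [finsum_mem_eq_finite_toFinset_sum _ (loops_finite (2 * n))]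
  unfold LF
  rw [dif_pos (loops_finite (2 * n))]

open scoped Classical in
theorem Box_eq {n : ℕ} (hn : 1 ≤ n) (w : ℕ) : Box w n =
    (((LF (2 * n)).filter (fun f => Nr (w : ℤ) f ∧ Lw (w : ℤ) f) :
      Finset (ZMod (2 * n) → ℤ × ℤ)) : Set (ZMod (2 * n) → ℤ × ℤ)) := by
  have : NeZero (2 * n) := ⟨by omega⟩
  ext f
  rw [Finset.coe_filter]
  constructor
  · rintro ⟨h1, h2, h3⟩
    refine ⟨(mem_LF (by omega)).2 h1, nr_wid.2 h2, ?_⟩
    have h4 : Nr (w : ℤ) (swp f) := nr_wid.2 (by rw [← height_eq]; exact h3)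
    exact h4
  · rintro ⟨h1, h2, h3⟩
    have h4 : Nr (w : ℤ) (swp f) := h3
    refine ⟨(mem_LF (by omega)).1 h1, nr_wid.1 h2, ?_⟩
    rw [height_eq]
    exact nr_wid.1 h4

theorem S_eq (x : ℝ) (w : ℕ) (φ : ℕ → ℝ) : S x w φ = Sg x φ w := by
  classical
  unfold S Sg
  refine Finset.sum_congr rfl fun n hn => ?_
  rw [Finset.mem_Icc] at hn
  congr 2
  rw [Box_eq (by omega), finsum_mem_coe_finset, Finset.sum_filter]
  rfl

theorem Z_eq (x e : ℝ) (w : ℕ) : Z x e w = Zw x e w := by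
  unfold Z
  rw [S_eq]
  rfl

theorem S_one (x : ℝ) (w : ℕ) : S x w (fun _ => 1) = Zs x w := by
  rw [S_eq]
  rfl

theorem M_eq (x : ℝ) (w : ℕ) : M x w = ma x w := by
  classical
  unfold M ma
  rw [S_one, S_eq]
  congr 1
  unfold Sg Za Bg
  refine Finset.sum_congr rfl fun n _ => ?_
  congr 2
  rw [Finset.sum_filter]

theorem Pr_lo (x r : ℝ) (w : ℕ) : Pr x w (Set.Iic r) = Qr x r w / Zs x w := by
  unfold Pr
  rw [S_one, S_eq, Qr_eq_Sg]
  rfl

theorem Pr_hi (x r : ℝ) (w : ℕ) : Pr x w (Set.Ici r) = Sg x (hi r) w / Zs x w := by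
  unfold Pr
  rw [S_one, S_eq]
  rfl

theorem small_eq {n : ℕ} (hn : 1 ≤ n) (w : ℕ) (r : ℝ) :
    small n w r = Br r w w (2 * n) / Zl 0 (2 * n) := by
  classical
  have : NeZero (2 * n) := ⟨by omega⟩
  have h : small n w r = (({f : ZMod (2 * n) → ℤ × ℤ | Pool.Agent.N223.PS.IsLoop (2 * n) f ∧
      width (2 * n) f ≤ w ∧ height (2 * n) f ≤ w ∧
      (Pool.Agent.N223.PS.area (2 * n) f : ℝ) ≤ r}.ncard : ℕ) : ℝ) /
      (({f : ZMod (2 * n) → ℤ × ℤ | Pool.Agent.N223.PS.IsLoop (2 * n) f}.ncard : ℕ) : ℝ) := rfl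
  rw [h, ncard_LF hn]
  congr 1
  unfold Br
  rw [← Finset.sum_filter, Finset.sum_const, nsmul_eq_mul, mul_one, ← Set.ncard_coe_finset]
  congr 2
  ext f
  rw [Finset.coe_filter]
  constructor
  · rintro ⟨h1, h2, h3, h5⟩
    have h4 : Nr (w : ℤ) (swp f) := nr_wid.2 (by rw [← height_eq]; exact h3)
    exact ⟨(mem_LF (by omega)).2 h1, ⟨nr_wid.2 h2, h4⟩, h5⟩
  · rintro ⟨h1, ⟨h2, h3⟩, h5⟩
    have h4 : Nr (w : ℤ) (swp f) := h3
    refine ⟨(mem_LF (by omega)).1 h1, nr_wid.1 h2, ?_, h5⟩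
    rw [height_eq]
    exact nr_wid.1 h4

theorem root_tendsto {u : ℕ → ℝ} {l : ℝ} (hu : ∀ n, 1 ≤ n → 0 < u n)
    (h : Tendsto (fun n : ℕ => Real.log (u n) / (2 * n)) atTop (𝓝 l)) :
    Tendsto (fun n : ℕ => u n ^ (1 / (2 * (n : ℝ)))) atTop (𝓝 (Real.exp l)) := by
  refine ((Real.continuous_exp.tendsto l).comp h).congr' ?_
  filter_upwards [eventually_ge_atTop 1] with n hn
  simp only [Function.comp]
  rw [Real.rpow_def_of_pos (hu n hn)]
  congr 1
  ring

/-- **Theorem.** Let `μ = lim N_n^(1/(2n))` and `g(e) = lim -(1/(2n)) log E_n[exp(-e A_n)]` for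
`e ≥ 0`, where `A_n` is the area of the uniform polygon of perimeter `2 n`. There are functions
`λ(x, e)` and `J(x, α)` and a constant `K > 0` such that
* `w⁻² log Z_w(x, e) → λ(x, e)` and `λ(x, e) ≥ 0`, `λ(x, -e) = λ(x, e) + e`, for all `x > 0` and all
  real `e`; `λ` is nondecreasing in `x`, nonincreasing in `e`, and convex in `(log x, e)`;
* for `x > 0` and `e ≥ 0`: `λ(x, e) ≤ max(0, log(μ x) - g(e))`, `λ(x, e) > 0` if and only if
  `g(e) < log(μ x)`, and `λ(x, -e) = e` if and only if `log(μ x) ≤ g(e)`; moreover `g(e) ≥ e/4` and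
  `λ(x, e) ≥ (2 n log(μ x) - 2 e (E[A_n] + 1) - K (log n)²) / (25 E[W_n]²)` for all `n ≥ 2`;
* for `x > 0` the function `J(x, ·)` is convex and nonincreasing on `(0, ∞)`, `J(x, α) = 0` for
  `α ≥ 1/2`, and for all `α > 0`: `J(x, α) = max_{e ≥ 0} (λ(x, 0) - λ(x, e) - e α)`,
  `-w⁻² log P_{w,x}(area ≤ α w²) → J(x, α)` and
  `-w⁻² log P_{w,x}(area ≥ (1 - α) w²) → J(x, α)`;
* if `x > 1/μ` then `J(x, α) ≥ λ(x, 0) - 4 α log(μ x)` for all `α > 0`, and the mean area `M_w(x)`
  satisfies `c ≤ M_w(x) / w² ≤ 1 - c` for all large `w`, for every `c < λ(x, 0) / (4 log(μ x))`;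
* for `x > 0`: `J(x, α) > 0` for all `0 < α < 1/2` if and only if `λ(x, ·)` has the derivative
  `-1/2` at `0`, and this holds whenever `λ(x, ·)` has a derivative at `0`; then
  `M_w(x) / w² → 1/2`;
* for all `n ≥ 2`, `w ≥ 1`, `x > 0`, `α > 0` with `α w ≥ 1`:
  `P_n(width ≤ w, height ≤ w, A_n ≤ α w²) ≤
  exp((w + 1)² (λ(x, 0) - J(x, α)) - 2 n log(μ x) + 6 log(w + 1) + K (log n)²)`. -/
theorem result : ∃ (μ K : ℝ) (g : ℝ → ℝ) (lam J : ℝ → ℝ → ℝ), 0 < μ ∧ 0 < K ∧
    Tendsto (fun n : ℕ => (N n : ℝ) ^ (1 / (2 * (n : ℝ)))) atTop (𝓝 μ) ∧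
    (∀ e : ℝ, 0 ≤ e → Tendsto (fun n : ℕ => -Real.log (lap n e) / (2 * n)) atTop (𝓝 (g e)) ∧
      e / 4 ≤ g e) ∧
    (∀ x e : ℝ, 0 < x →
      Tendsto (fun w : ℕ => Real.log (Z x e w) / (w : ℝ) ^ 2) atTop (𝓝 (lam x e)) ∧
      0 ≤ lam x e ∧ lam x (-e) = lam x e + e) ∧
    (∀ x y d e : ℝ, 0 < x → x ≤ y → d ≤ e → lam x e ≤ lam y d) ∧
    (∀ x y d e t s : ℝ, 0 < x → 0 < y → 0 < t → 0 < s → t + s = 1 →
      lam (x ^ t * y ^ s) (t * d + s * e) ≤ t * lam x d + s * lam y e) ∧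
    (∀ x e : ℝ, 0 < x → 0 ≤ e → lam x e ≤ max 0 (Real.log (μ * x) - g e) ∧
      (0 < lam x e ↔ g e < Real.log (μ * x)) ∧ (lam x (-e) = e ↔ Real.log (μ * x) ≤ g e) ∧
      ∀ n : ℕ, 2 ≤ n → (2 * n * Real.log (μ * x) - 2 * e * (meanArea n + 1) -
        K * Real.log n ^ 2) / (25 * meanWidth n ^ 2) ≤ lam x e) ∧
    (∀ x : ℝ, 0 < x → ConvexOn ℝ (Set.Ioi 0) (J x) ∧ AntitoneOn (J x) (Set.Ioi 0) ∧
      (∀ α : ℝ, 1 / 2 ≤ α → J x α = 0) ∧
      ∀ α : ℝ, 0 < α →
        IsGreatest {y : ℝ | ∃ e : ℝ, 0 ≤ e ∧ y = lam x 0 - lam x e - e * α} (J x α) ∧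
        Tendsto (fun w : ℕ => -Real.log (Pr x w (Set.Iic (α * (w : ℝ) ^ 2))) / (w : ℝ) ^ 2)
          atTop (𝓝 (J x α)) ∧
        Tendsto (fun w : ℕ => -Real.log (Pr x w (Set.Ici ((1 - α) * (w : ℝ) ^ 2))) / (w : ℝ) ^ 2)
          atTop (𝓝 (J x α))) ∧
    (∀ x : ℝ, 1 / μ < x → (∀ α : ℝ, 0 < α → lam x 0 - 4 * α * Real.log (μ * x) ≤ J x α) ∧
      ∀ c : ℝ, c < lam x 0 / (4 * Real.log (μ * x)) →
        ∀ᶠ w : ℕ in atTop, c ≤ M x w / (w : ℝ) ^ 2 ∧ M x w / (w : ℝ) ^ 2 ≤ 1 - c) ∧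
    (∀ x : ℝ, 0 < x →
      ((∀ α : ℝ, 0 < α → α < 1 / 2 → 0 < J x α) ↔ HasDerivAt (lam x) (-(1 / 2)) 0) ∧
      (DifferentiableAt ℝ (lam x) 0 → HasDerivAt (lam x) (-(1 / 2)) 0 ∧
        Tendsto (fun w : ℕ => M x w / (w : ℝ) ^ 2) atTop (𝓝 (1 / 2)))) ∧
    (∀ n w : ℕ, 2 ≤ n → 1 ≤ w → ∀ x α : ℝ, 0 < x → 0 < α → 1 ≤ α * w →
      small n w (α * (w : ℝ) ^ 2) ≤ Real.exp (((w : ℝ) + 1) ^ 2 * (lam x 0 - J x α) -
        2 * n * Real.log (μ * x) + 6 * Real.log ((w : ℝ) + 1) + K * Real.log n ^ 2)) := by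
  obtain ⟨K1, hK1, h1⟩ := lam2_ge_width
  obtain ⟨K2, hK2, h2⟩ := uniform_le
  have hmu : 0 < H981.mu := H981.mu_pos
  refine ⟨H981.mu, K1 + K2, gg, lam2, Jr, hmu, by linarith, ?_, ?_, ?_, ?_, ?_, ?_, ?_, ?_, ?_, ?_⟩
  · have h := root_tendsto (u := fun n => Zl 0 (2 * n)) (fun n hn => Zl_pos 0 hn)
      (Zl_tendsto le_rfl)
    rw [Lam_zero, Real.exp_log hmu] at h
    refine h.congr' ?_
    filter_upwards [eventually_ge_atTop 1] with n hn
    rw [N_eq hn]
  · intro e he
    refine ⟨?_, gg_ge he⟩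
    refine (gg_tendsto he).congr' ?_
    filter_upwards [eventually_ge_atTop 1] with n hn
    rw [lap_eq hn]
  · intro x e hx
    refine ⟨?_, lam2_nonneg hx e, dual hx e⟩
    simp only [Z_eq]
    exact lam2_tendsto hx e
  · intro x y d e hx hxy hde
    exact lam2_mono hx hxy hde
  · intro x y d e t s hx hy ht hs hts
    exact lam2_convex hx hy d e ht hs hts
  · intro x e hx he
    refine ⟨lam2_le hx he, lam2_pos_iff hx he, ?_, ?_⟩
    · rw [dual hx e]
      constructor
      · intro h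
        by_contra hcon
        have := (lam2_pos_iff hx he).2 (not_le.1 hcon)
        linarith
      · intro h
        rw [lam2_eq_zero hx he h, zero_add]
    · intro n hn
      rw [A_eq (by omega), W_eq (by omega)]
      refine le_trans ?_ (h1 n hn x e hx he)
      apply div_le_div_of_nonneg_right _ (by positivity)
      have : K1 * Real.log n ^ 2 ≤ (K1 + K2) * Real.log n ^ 2 :=
        mul_le_mul_of_nonneg_right (by linarith) (sq_nonneg _)
      linarith
  · intro x hx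
    refine ⟨Jr_convex hx, Jr_anti hx, fun α hα => Jr_half hx hα, fun α hα =>
      ⟨Jr_max hx hα, ?_, ?_⟩⟩
    · have h3 := (lam_tendsto hx).sub (phi_tendsto hx hα)
      refine h3.congr' ?_
      filter_upwards [eventually_ge_atTop 1, ev_one_le hα] with w hw hr
      rw [Pr_lo, Real.log_div (Qr_pos hx hr hw).ne' (Zs_pos hx hw).ne', ← sub_div]
      congr 1
      ring
    · have h3 := (lam_tendsto hx).sub (hi_tendsto hx hα)
      refine h3.congr' ?_
      filter_upwards [eventually_ge_atTop 1, Hr_pos hx hα] with w hw hr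
      rw [Pr_hi, Real.log_div hr.ne' (Zs_pos hx hw).ne', ← sub_div]
      congr 1
      ring
  · intro x hx
    refine ⟨fun α hα => ?_, fun c hc => ?_⟩
    · have := Jr_ge hx.le hα
      linarith
    · simp only [M_eq]
      exact ma_dense hx hc
  · intro x hx
    refine ⟨deriv_iff hx, fun hd => ?_⟩
    obtain ⟨h3, h4⟩ := ma_half hx hd.hasDerivAt
    refine ⟨?_, ?_⟩
    · have := hd.hasDerivAt
      rwa [h3] at this
    · simp only [M_eq]
      exact h4
  · intro n w hn hw x α hx hα hαw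
    rw [small_eq (by omega)]
    refine (h2 n hn w hw x α hx hα hαw).trans (Real.exp_le_exp.2 ?_)
    have h3 : K2 * Real.log n ^ 2 ≤ (K1 + K2) * Real.log n ^ 2 :=
      mul_le_mul_of_nonneg_right (by linarith) (sq_nonneg _)
    have e1 : lam2 x 0 - Jr x α = phi x α := by
      rw [lam2_zero hx]
      unfold Jr
      ring
    rw [e1]
    linarith

end Pool.Agent.Results.MP_f6626d_co.DensePhaseArea
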